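import Pool.Agent.N728.QU.Def
import Pool.Agent.N608.QL.AV1

/-! # QU/AV1: parallelograms whose discriminant is divisible by `d`, or zero, for any `c` -/

set_option autoImplicit false

namespace Pool.Agent.N488.QU

open Finset
open Pool.Agent.N728.QL Pool.Agent.N728.QU
open Pool.Agent.N608.QL (DF Dl_eq Nd Nd_prime Nd_mul Nd_one box_count sum_eq_card)

section dom

variable {F : Type*} [CommRing F] [IsDomain F]

theorem card_x0 [DecidableEq F] {M A A' C C' t r : F} (hM : M ≠ 0) (hC : C ≠ 0) (hC' : C' ≠ 0)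
    (ht : t ≠ 0) (hr : r ≠ 0) (h1 : t * C + r * C' ≠ 0) (h2 : t * C - r * C' ≠ 0)
    (S : Finset F) : (S.filter (fun x => DF 0 M A A' C C' x t r = 0)).card ≤ 16 := by
  have hsub : S.filter (fun x => DF 0 M A A' C C' x t r = 0) ⊆
      {0, -(t * A), -(r * A'), -(t * A + r * A')} := by
    intro x hx
    rw [mem_filter] at hx
    have h := hx.2
    simp only [mem_insert, mem_singleton]
    by_contra hcon
    push Not at hcon
    obtain ⟨a1, a2, a3, a4⟩ := hcon
    have b2 : x + t * A ≠ 0 := fun h => a2 (eq_neg_of_add_eq_zero_left h)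
    have b3 : x + r * A' ≠ 0 := fun h => a3 (eq_neg_of_add_eq_zero_left h)
    have b4 : x + t * A + r * A' ≠ 0 := fun h =>
      a4 (eq_neg_of_add_eq_zero_left (by rw [← add_assoc]; exact h))
    have e : DF 0 M A A' C C' x t r =
        (x * (x + t * A) * (x + r * A') * (x + t * A + r * A')) *
        ((t * (-(M * C * x * (x + t * A)))) * (r * (-(M * C' * x * (x + r * A')))) *
        (-(M * (t * C + r * C') * x * (x + t * A + r * A'))) *
        (M * (t * C - r * C') * (x + t * A) * (x + r * A')) *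
        (r * (-(M * C' * (x + t * A) * (x + t * A + r * A')))) *
        (t * (-(M * C * (x + r * A') * (x + t * A + r * A'))))) := by
      unfold DF
      ring
    rw [e] at h
    revert h
    simp [hM, hC, hC', ht, hr, h1, h2, a1, b2, b3, b4]
  refine (card_le_card hsub).trans ?_
  refine (card_insert_le _ _).trans ?_
  have g1 := card_insert_le (-(t * A)) ({-(r * A'), -(t * A + r * A')} : Finset F)
  have g2 := card_insert_le (-(r * A')) ({-(t * A + r * A')} : Finset F)
  rw [card_singleton] at g2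
  omega

/-- The number of zeros in a box, over a domain. -/
theorem count0 [DecidableEq F] {M A A' C C' : F} (hM : M ≠ 0) (hC : C ≠ 0) (hC' : C' ≠ 0)
    (S1 S2 S3 : Finset F) :
    ((S1 ×ˢ (S2 ×ˢ S3)).filter (fun v => DF 0 M A A' C C' v.1 v.2.1 v.2.2 = 0)).card ≤
      16 * (S2.card * S3.card) + S1.card * (S3.card + 3 * S2.card) := by
  classical
  set dg : F × F → Prop := fun u => u.1 = 0 ∨ u.2 = 0 ∨ u.1 * C + u.2 * C' = 0 ∨
    u.1 * C - u.2 * C' = 0 with hdg
  set G := (S1 ×ˢ (S2 ×ˢ S3)).filter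
    (fun v => DF 0 M A A' C C' v.1 v.2.1 v.2.2 = 0 ∧ ¬ dg v.2) with hG
  set B := S1 ×ˢ ((S2 ×ˢ S3).filter dg) with hB
  have hsub : (S1 ×ˢ (S2 ×ˢ S3)).filter (fun v => DF 0 M A A' C C' v.1 v.2.1 v.2.2 = 0) ⊆
      G ∪ B := by
    intro v hv
    rw [mem_filter, mem_product] at hv
    simp only [mem_union, hG, hB, mem_filter, mem_product (s := S1)]
    by_cases h : dg v.2
    · exact Or.inr ⟨hv.1.1, hv.1.2, h⟩
    · exact Or.inl ⟨hv.1, hv.2, h⟩
  have hGc : G.card ≤ 16 * (S2.card * S3.card) := by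
    have h1 : G.card ≤ 16 * (G.image Prod.snd).card := by
      apply Finset.card_le_mul_card_image
      intro u hu
      obtain ⟨v, hv, rfl⟩ := mem_image.1 hu
      rw [hG, mem_filter] at hv
      have hnd := hv.2.2
      simp only [hdg, not_or] at hnd
      refine le_trans ?_ (card_x0 (M := M) (A := A) (A' := A') hM hC hC' hnd.1 hnd.2.1 hnd.2.2.1
        hnd.2.2.2 S1)
      apply card_le_card_of_injOn Prod.fst
      · intro w hw
        simp only [coe_filter, Set.mem_ofPred_eq] at hw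
        have hw1 := (mem_filter.1 hw.1)
        simp only [coe_filter, Set.mem_ofPred_eq]
        refine ⟨(mem_product.1 hw1.1).1, ?_⟩
        have := hw1.2.1
        rw [hw.2] at this
        exact this
      · intro w hw w' hw' h
        simp only [coe_filter, Set.mem_ofPred_eq] at hw hw'
        exact Prod.ext h (hw.2.trans hw'.2.symm)
    refine h1.trans (Nat.mul_le_mul_left _ ?_)
    rw [← card_product]
    apply card_le_card
    intro u hu
    obtain ⟨v, hv, rfl⟩ := mem_image.1 hu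
    exact (mem_product.1 (mem_filter.1 hv).1).2
  have hBc : B.card ≤ S1.card * (S3.card + 3 * S2.card) := by
    rw [hB, card_product]
    apply Nat.mul_le_mul_left
    have hs : (S2 ×ˢ S3).filter dg ⊆ ((S2 ×ˢ S3).filter (fun u => u.1 = 0)) ∪
        (((S2 ×ˢ S3).filter (fun u => u.2 = 0)) ∪
        (((S2 ×ˢ S3).filter (fun u => u.1 * C + u.2 * C' = 0)) ∪
        ((S2 ×ˢ S3).filter (fun u => u.1 * C - u.2 * C' = 0)))) := by
      intro u hu
      rw [mem_filter] at hu
      simp only [mem_union, mem_filter]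
      rcases hu.2 with h | h | h | h
      · exact Or.inl ⟨hu.1, h⟩
      · exact Or.inr (Or.inl ⟨hu.1, h⟩)
      · exact Or.inr (Or.inr (Or.inl ⟨hu.1, h⟩))
      · exact Or.inr (Or.inr (Or.inr ⟨hu.1, h⟩))
    have c1 : ((S2 ×ˢ S3).filter (fun u => u.1 = 0)).card ≤ S3.card := by
      apply card_le_card_of_injOn Prod.snd
      · intro w hw
        simp only [coe_filter, Set.mem_ofPred_eq, mem_product] at hw
        exact hw.1.2
      · intro w hw w' hw' h
        simp only [coe_filter, Set.mem_ofPred_eq] at hw hw'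
        exact Prod.ext (hw.2.trans hw'.2.symm) h
    have inj : ∀ (P : F × F → Prop) [DecidablePred P],
        (∀ a b b' : F, P (a, b) → P (a, b') → b = b') →
        ((S2 ×ˢ S3).filter P).card ≤ S2.card := by
      intro P _ hP
      apply card_le_card_of_injOn Prod.fst
      · intro w hw
        simp only [coe_filter, Set.mem_ofPred_eq, mem_product] at hw
        exact hw.1.1
      · rintro ⟨a, b⟩ hw ⟨a', b'⟩ hw' h
        simp only [coe_filter, Set.mem_ofPred_eq] at hw hw' h
        subst h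
        rw [hP a b b' hw.2 hw'.2]
    have c2 := inj (fun u => u.2 = 0) (fun a b b' h h' => h.trans h'.symm)
    have c3 := inj (fun u => u.1 * C + u.2 * C' = 0) (fun a b b' h h' => by
      simp only at h h'
      have : (b - b') * C' = 0 := by linear_combination h - h'
      rcases mul_eq_zero.1 this with h0 | h0
      · exact sub_eq_zero.1 h0
      · exact absurd h0 hC')
    have c4 := inj (fun u => u.1 * C - u.2 * C' = 0) (fun a b b' h h' => by
      simp only at h h'
      have : (b - b') * C' = 0 := by linear_combination h' - h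
      rcases mul_eq_zero.1 this with h0 | h0
      · exact sub_eq_zero.1 h0
      · exact absurd h0 hC')
    refine (card_le_card hs).trans ?_
    refine (card_union_le _ _).trans ?_
    have d1 := card_union_le ((S2 ×ˢ S3).filter (fun u => u.2 = 0))
        (((S2 ×ˢ S3).filter (fun u => u.1 * C + u.2 * C' = 0)) ∪
        ((S2 ×ˢ S3).filter (fun u => u.1 * C - u.2 * C' = 0)))
    have d2 := card_union_le ((S2 ×ˢ S3).filter (fun u => u.1 * C + u.2 * C' = 0))
        ((S2 ×ˢ S3).filter (fun u => u.1 * C - u.2 * C' = 0))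
    omega
  exact (card_le_card hsub).trans ((card_union_le _ _).trans (add_le_add hGc hBc))

end dom

theorem Nd_prime0 {c M C C' : ℤ} (A A' : ℤ) {p : ℕ} (hp : p.Prime) (hc : (p : ℤ) ∣ c)
    (hM : ¬ (p : ℤ) ∣ M) (hC : ¬ (p : ℤ) ∣ C) (hC' : ¬ (p : ℤ) ∣ C') :
    Nd c M A A' C C' p ≤ 20 * p ^ 2 := by
  classical
  have : Fact p.Prime := ⟨hp⟩
  have hc0 : (c : ZMod p) = 0 := (ZMod.intCast_zmod_eq_zero_iff_dvd c p).2 hc
  have e : Nd c M A A' C C' p = ((univ ×ˢ (univ ×ˢ univ) : Finset (ZMod p × ZMod p × ZMod p)).filter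
      (fun v => DF (0 : ZMod p) M A A' C C' v.1 v.2.1 v.2.2 = 0)).card := by
    rw [Nd, Nat.card_eq_fintype_card, Fintype.card_subtype, hc0]
    rfl
  rw [e]
  have h := count0 (M := (M : ZMod p)) (C := (C : ZMod p)) (C' := (C' : ZMod p))
    (A := (A : ZMod p)) (A' := (A' : ZMod p))
    (by rwa [Ne, ZMod.intCast_zmod_eq_zero_iff_dvd]) (by rwa [Ne, ZMod.intCast_zmod_eq_zero_iff_dvd])
    (by rwa [Ne, ZMod.intCast_zmod_eq_zero_iff_dvd]) univ univ univ
  rw [card_univ, ZMod.card] at h
  refine h.trans (le_of_eq ?_)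
  ring

theorem Nd_le {c M A A' C C' : ℤ} {d : ℕ} (hd : Squarefree d)
    (h : ∀ p : ℕ, p.Prime → p ∣ d → ¬ (p : ℤ) ∣ M ∧ ¬ (p : ℤ) ∣ A ∧ ¬ (p : ℤ) ∣ A' ∧
      ¬ (p : ℤ) ∣ C ∧ ¬ (p : ℤ) ∣ C') :
    Nd c M A A' C C' d ≤ 20 ^ d.primeFactors.card * d ^ 2 := by
  induction d using induction_on_primes with
  | zero => exact absurd hd not_squarefree_zero
  | one => rw [Nd_one]; simp
  | prime_mul p a hp ih =>
    have hco : Nat.Coprime p a := by
      rw [Nat.Prime.coprime_iff_not_dvd hp]
      rintro ⟨b, rfl⟩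
      have : p * p ∣ p * (p * b) := ⟨b, by ring⟩
      exact hp.one_lt.ne' (Nat.isUnit_iff.1 (hd p this))
    have ha : Squarefree a := hd.squarefree_of_dvd (Dvd.intro_left p rfl)
    rw [Nd_mul c M A A' C C' hco]
    obtain ⟨g1, g2, g3, g4, g5⟩ := h p hp (Dvd.intro a rfl)
    have h2 : Nd c M A A' C C' p ≤ 20 * p ^ 2 := by
      by_cases hpc : (p : ℤ) ∣ c
      · exact Nd_prime0 A A' hp hpc g1 g4 g5
      · exact Nd_prime C C' hp hpc g2 g3
    have h3 := ih ha (fun q hq hqa => h q hq (hqa.mul_left p))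
    have h4 : (p * a).primeFactors.card = a.primeFactors.card + 1 := by
      rw [hco.primeFactors_mul, hp.primeFactors, card_union_of_disjoint, card_singleton, add_comm]
      rw [disjoint_singleton_left]
      intro h5
      exact (Nat.Prime.coprime_iff_not_dvd hp).1 hco (Nat.dvd_of_mem_primeFactors h5)
    rw [h4]
    calc _ ≤ (20 * p ^ 2) * (20 ^ a.primeFactors.card * a ^ 2) := Nat.mul_le_mul h2 h3
      _ = _ := by ring

/-- QU/AV1 -/
theorem t_AV1u : S_AV1u := by
  classical
  refine ⟨200, by norm_num, ?_⟩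
  intro c M A A' C C' X R R' hc hC hC' hM hA hA' hX hR hR'
  have hXr : (1 : ℝ) ≤ X := by exact_mod_cast hX
  have hRr : (1 : ℝ) ≤ R := by exact_mod_cast hR
  have hRr' : (1 : ℝ) ≤ R' := by exact_mod_cast hR'
  constructor
  · intro d hd hp hdX hdR hdR'
    have hd0 : 0 < d := Nat.pos_of_ne_zero hd.ne_zero
    have hdr : (0 : ℝ) < d := by exact_mod_cast hd0
    have e := sum_eq_card (Icc (1 : ℤ) X) (Icc (-(R : ℤ)) R) (Icc (-(R' : ℤ)) R')
      (fun x t r => (d : ℤ) ∣ Dl c M (xs A A' x t r) (ts C C' t r))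
    rw [e]
    simp only [Dl_eq]
    refine (box_count c M A A' C C' hd0 hdX hdR hdR').trans ?_
    have h1 : Nd c M A A' C C' d ≤ 20 ^ d.primeFactors.card * d ^ 2 := by
      apply Nd_le hd
      intro p hpp hpd
      obtain ⟨h2, h3⟩ := hp p hpp hpd
      refine ⟨?_, ?_, ?_, ?_, ?_⟩
      · intro h4
        exact h2 (((Int.natCast_dvd_natCast.1 h4).mul_right A).mul_right A')
      · intro h4
        exact h2 (((Int.natCast_dvd_natCast.1 h4).mul_left M).mul_right A')
      · intro h4
        exact h2 ((Int.natCast_dvd_natCast.1 h4).mul_left (M * A))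
      · intro h4
        exact h3 (h4.mul_right C')
      · intro h4
        exact h3 (h4.mul_left C)
    have h2 : (Nd c M A A' C C' d : ℝ) ≤ 20 ^ d.primeFactors.card * (d : ℝ) ^ 2 := by
      exact_mod_cast h1
    calc _ ≤ (20 ^ d.primeFactors.card * (d : ℝ) ^ 2) * ((2 * X / d) * (4 * R / d) * (4 * R' / d)) :=
          mul_le_mul_of_nonneg_right h2 (by positivity)
      _ = 32 * 20 ^ d.primeFactors.card / d * ((X : ℝ) * R * R') := by
        field_simp
        ring
      _ ≤ 200 * 20 ^ d.primeFactors.card / d * ((X : ℝ) * R * R') := by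
        gcongr
        norm_num
  · have e := sum_eq_card (Icc (1 : ℤ) X) (Icc (-(R : ℤ)) R) (Icc (-(R' : ℤ)) R')
      (fun x t r => Dl c M (xs A A' x t r) (ts C C' t r) = 0)
    rw [e]
    simp only [Dl_eq]
    have h := Pool.Agent.N608.QL.count (F := ℤ) (c := c) (M := (M : ℤ)) (A := (A : ℤ))
      (A' := (A' : ℤ)) (C := C) (C' := C') hc (by positivity) (by positivity) (Icc (1 : ℤ) X)
      (Icc (-(R : ℤ)) R) (Icc (-(R' : ℤ)) R')
    simp only [Int.card_Icc] at h
    have e1 : ((X : ℤ) + 1 - 1).toNat = X := by simp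
    have e2 : ((R : ℤ) + 1 - -(R : ℤ)).toNat = 2 * R + 1 := by omega
    have e3 : ((R' : ℤ) + 1 - -(R' : ℤ)).toNat = 2 * R' + 1 := by omega
    rw [e1, e2, e3] at h
    refine (Nat.cast_le.2 h).trans ?_
    push_cast
    nlinarith [mul_nonneg (by linarith : (0:ℝ) ≤ R - 1) (by linarith : (0:ℝ) ≤ R' - 1),
      mul_nonneg (by linarith : (0:ℝ) ≤ R - 1) (by linarith : (0:ℝ) ≤ (X : ℝ)),
      mul_nonneg (by linarith : (0:ℝ) ≤ R' - 1) (by linarith : (0:ℝ) ≤ (X : ℝ))]

end Pool.Agent.N488.QU
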