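import Pool.Agent.N728.QU.Def
import Pool.Agent.N82.QL.FLB

/-!
# FLBu, FUBu: the fundamental lemma of the sieve for four forms, any constant term (project QU of helper728)

Template: `Pool/Agent/N82/QL/FLB.lean` (helper82).
-/

set_option autoImplicit false

namespace Pool.Agent.N488.QU

open Finset Pool.Agent.N728.QU Pool.Agent.N82.QL
open Pool.Agent.N728.QL hiding VW_pos dvd_PP

noncomputable section

/-- The product over the large primes, abstract form. -/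
lemma high_gen {z z1 s : ℕ} {D : ℤ} (Nf : ℕ → ℕ) (hs : s ≤ 4) (hz : 192 ≤ z)
    (h : z ≤ z1) (hD : D ≠ 0)
    (hle : ∀ p : ℕ, p.Prime → z < p → p ≤ z1 → Nf p ≤ s)
    (heq : ∀ p : ℕ, p.Prime → z < p → p ≤ z1 → ¬ (p : ℤ) ∣ D → Nf p = s) :
    |∏ p ∈ (Ioc z z1).filter Nat.Prime,
      (1 - (Nf p : ℝ) / p) / (1 - 1 / (p : ℝ)) ^ s - 1| ≤
      (1 + 192 / z) * hq z D - 1 := by
  classical
  refine (abs_prod_sub_one _ _).trans (sub_le_sub_right ?_ 1)
  calc ∏ p ∈ (Ioc z z1).filter Nat.Prime,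
      (1 + |(1 - (Nf p : ℝ) / p) / (1 - 1 / (p : ℝ)) ^ s - 1|)
      ≤ ∏ p ∈ (Ioc z z1).filter Nat.Prime, ((1 + 96 / (p : ℝ) ^ 2) *
        (if (p : ℤ) ∣ D then 1 + 8 / (p : ℝ) else 1)) := by
        refine Finset.prod_le_prod (fun p _ => by positivity) fun p hp => ?_
        rw [mem_filter, mem_Ioc] at hp
        have hp8 : (8 : ℝ) ≤ p := by
          have : 8 ≤ p := by omega
          exact_mod_cast this
        have hle' := hle p hp.2 hp.1.1 hp.1.2
        split_ifs with hd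
        · have h1 := facB hp8 hs hle'
          have h2 : (0 : ℝ) ≤ 96 / (p : ℝ) ^ 2 := by positivity
          have h3 : (0 : ℝ) ≤ 8 / (p : ℝ) := by positivity
          nlinarith [mul_nonneg h2 h3]
        · rw [heq p hp.2 hp.1.1 hp.1.2 hd, mul_one]
          have h1 := facA hp8 hs
          linarith
    _ = (∏ p ∈ (Ioc z z1).filter Nat.Prime, (1 + 96 / (p : ℝ) ^ 2)) *
        ∏ p ∈ (Ioc z z1).filter Nat.Prime,
          (if (p : ℤ) ∣ D then 1 + 8 / (p : ℝ) else 1) := Finset.prod_mul_distrib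
    _ ≤ (1 + 192 / z) * hq z D := by
        refine mul_le_mul (prod_sq_le hz h) (prod_ite_le_hq z z1 hD) ?_ (by positivity)
        exact Finset.prod_nonneg fun p _ => by split_ifs <;> positivity

/-- The product over the middle primes. -/
lemma mid_est' {y z M : ℕ} {x θ : Fin 4 → ℤ} {c : ℤ} (hy : 2 ≤ y) (hD : Dl c M x θ ≠ 0)
    (hMc : ∀ p : ℕ, p.Prime → y < p → ¬ p ∣ M)
    (hc : ∀ p : ℕ, p.Prime → p ≤ z → ∀ i, ¬ ((p : ℤ) ∣ M * x i ∧ (p : ℤ) ∣ c)) :
    ∏ p ∈ (Ioc y z).filter Nat.Prime,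
      (1 - ((NT M x θ c univ p).card : ℝ) / p) / (1 - 1 / (p : ℝ)) ^ 4 ≤
      256 * hq y (Dl c M x θ) := by
  classical
  calc ∏ p ∈ (Ioc y z).filter Nat.Prime,
      (1 - ((NT M x θ c univ p).card : ℝ) / p) / (1 - 1 / (p : ℝ)) ^ 4
      ≤ ∏ p ∈ (Ioc y z).filter Nat.Prime, ((if p < 8 then (2 : ℝ) else 1) *
        (if (p : ℤ) ∣ Dl c M x θ then 1 + 8 / (p : ℝ) else 1)) := by
        refine Finset.prod_le_prod (fun p hp => ?_) fun p hp => ?_
        · rw [mem_filter, mem_Ioc] at hp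
          have h1 : (NT M x θ c univ p).card ≤ p := by
            calc _ ≤ (range p).card := card_le_card (filter_subset _ _)
              _ = p := card_range p
          have hp0 : (0 : ℝ) < p := by exact_mod_cast hp.2.pos
          have h2 : ((NT M x θ c univ p).card : ℝ) / p ≤ 1 := by
            rw [div_le_one hp0]
            exact_mod_cast h1
          exact div_nonneg (by linarith) (pow_nonneg (fac_pos hp.2).le _)
        · rw [mem_filter, mem_Ioc] at hp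
          have hle := NT_card_le (M := M) (x := x) (θ := θ) (c := c) univ hp.2
            (hc p hp.2 hp.1.2)
          by_cases hd : (p : ℤ) ∣ Dl c M x θ
          · rw [if_pos hd, mul_comm]
            exact facC (by omega) _
          · rw [if_neg hd, mul_one]
            have hge := le_NT_card (x := x) (θ := θ) (c := c) univ hp.2 (hMc p hp.2 hp.1.1) hd
            rw [le_antisymm hle hge, Finset.card_univ, Fintype.card_fin]
            refine (facD hp.2.two_le).trans ?_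
            split_ifs <;> norm_num
    _ = (∏ p ∈ (Ioc y z).filter Nat.Prime, (if p < 8 then (2 : ℝ) else 1)) *
        ∏ p ∈ (Ioc y z).filter Nat.Prime,
          (if (p : ℤ) ∣ Dl c M x θ then 1 + 8 / (p : ℝ) else 1) := Finset.prod_mul_distrib
    _ ≤ 256 * hq y (Dl c M x θ) := by
        refine mul_le_mul (prod_two_le y z) (prod_ite_le_hq y z hD) ?_ (by norm_num)
        exact Finset.prod_nonneg fun p _ => by split_ifs <;> positivity

lemma G0_le' {w y z M : ℕ} {x θ : Fin 4 → ℤ} {c : ℤ} (hy : 2 ≤ y) (hyz : y ≤ z)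
    (hD : Dl c M x θ ≠ 0) (hMc : ∀ p : ℕ, p.Prime → y < p → ¬ p ∣ M)
    (hc : ∀ p : ℕ, p.Prime → p ≤ z → ∀ i, ¬ ((p : ℤ) ∣ M * x i ∧ (p : ℤ) ∣ c)) :
    (VW 0 z)⁻¹ ^ 4 * A0 w y z M x θ c ≤ 256 * (VW 0 y)⁻¹ ^ 4 * hq y (Dl c M x θ) := by
  have h0 := VW_pos 0 y
  have h1 := VW_pos y z
  rw [VW_split (Nat.zero_le y) hyz, A0, prod_split _ (Nat.zero_le y) hyz]
  have e2 : ∏ p ∈ (Ioc y z).filter Nat.Prime, (1 - ((Om w y z M x θ c ∅ p).card : ℝ) / p) =
      ∏ p ∈ (Ioc y z).filter Nat.Prime, (1 - ((NT M x θ c univ p).card : ℝ) / p) :=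
    Finset.prod_congr rfl fun p hp => by
      have := mem_Ioc.1 (mem_filter.1 hp).1
      rw [Om_eq_mid this.1 this.2]
  have h2 : ∏ p ∈ (Ioc 0 y).filter Nat.Prime, (1 - ((Om w y z M x θ c ∅ p).card : ℝ) / p) ≤ 1 :=
    Finset.prod_le_one (fun p hp => by
      have := card_Om_le (w := w) (y := y) (z := z) (M := M) (x := x) (θ := θ) (c := c) (Sb := ∅)
        (mem_filter.1 hp).2.pos
      linarith) (fun p _ => by
      have : (0 : ℝ) ≤ ((Om w y z M x θ c ∅ p).card : ℝ) / p := by positivity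
      linarith)
  have h3 : 0 ≤ ∏ p ∈ (Ioc y z).filter Nat.Prime,
      (1 - ((Om w y z M x θ c ∅ p).card : ℝ) / p) :=
    Finset.prod_nonneg fun p hp => by
      have := card_Om_le (w := w) (y := y) (z := z) (M := M) (x := x) (θ := θ) (c := c) (Sb := ∅)
        (mem_filter.1 hp).2.pos
      linarith
  have h4 := mid_est' (z := z) hy hD hMc hc
  rw [Finset.prod_div_distrib, Finset.prod_pow] at h4
  have e3 : ∏ p ∈ (Ioc y z).filter Nat.Prime, (1 - 1 / (p : ℝ)) = VW y z := rfl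
  rw [e3, ← e2] at h4
  calc (VW 0 y * VW y z)⁻¹ ^ 4 *
      ((∏ p ∈ (Ioc 0 y).filter Nat.Prime, (1 - ((Om w y z M x θ c ∅ p).card : ℝ) / p)) *
        ∏ p ∈ (Ioc y z).filter Nat.Prime, (1 - ((Om w y z M x θ c ∅ p).card : ℝ) / p))
      ≤ (VW 0 y * VW y z)⁻¹ ^ 4 * (1 *
        ∏ p ∈ (Ioc y z).filter Nat.Prime, (1 - ((Om w y z M x θ c ∅ p).card : ℝ) / p)) := by
        gcongr
    _ = (VW 0 y)⁻¹ ^ 4 * ((∏ p ∈ (Ioc y z).filter Nat.Prime,
        (1 - ((Om w y z M x θ c ∅ p).card : ℝ) / p)) / VW y z ^ 4) := by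
        rw [mul_inv, mul_pow, one_mul, inv_pow (VW y z), div_eq_mul_inv]
        ring
    _ ≤ (VW 0 y)⁻¹ ^ 4 * (256 * hq y (Dl c M x θ)) := by
        gcongr
    _ = _ := by ring

/-- a form which is divisible by a prime `p ≤ z` for all `t` -/
lemma lz_zero {z p M : ℕ} {x θ : Fin 4 → ℤ} {c : ℤ} {i : Fin 4} (hp : p.Prime) (hpz : p ≤ z)
    (h1 : (p : ℤ) ∣ M * x i) (h2 : (p : ℤ) ∣ c) (t : ℤ) :
    lz z (M * x i * (t + θ i) + c) = 0 := by
  rw [lz, if_neg]
  intro hR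
  exact hR p hp hp.pos hpz (dvd_add (Dvd.dvd.mul_right h1 _) h2)

/-- FLBu. -/
theorem t_FLBu (h1 : S_FLC) (h2 : S_MER) : S_FLBu := by
  classical
  obtain ⟨K0, hK0, hF⟩ := h1
  obtain ⟨C, hC1, -, hC⟩ := h2
  obtain ⟨N, hN⟩ := exists_nat_ge (16 * C ^ 4)
  refine ⟨K0 + 5 + N + 1000000, by omega, ?_⟩
  intro c b w y z z1 M x θ J1 J2 hKb hKz hw hwy hyz hzz1 hMd hJ hD hcz
  obtain ⟨K, hK⟩ : ∃ K : ℕ, K = K0 + 5 + N + 1000000 := ⟨_, rfl⟩
  rw [← hK] at hKb hKz ⊢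
  have hL : 0 ≤ (J2 : ℝ) - J1 := by
    have : (J1 : ℝ) ≤ J2 := by exact_mod_cast hJ
    linarith
  have hVy := VW_pos 0 y
  have hqy := one_le_hq y (Dl c M x θ)
  have hqz := one_le_hq z (Dl c M x θ)
  have hqzy := hq_mono hyz (Dl c M x θ)
  have hz0 : (0 : ℝ) < z := by
    have : 0 < z := by omega
    exact_mod_cast this
  have hMc : ∀ p : ℕ, p.Prime → y < p → ¬ p ∣ M := by
    intro p hp hyp h3
    have h6 := (dvd_PP hp (h3.trans hMd)).2
    omega
  by_cases hbad : ∃ i, ∃ p : ℕ, p.Prime ∧ p ≤ z ∧ (p : ℤ) ∣ M * x i ∧ (p : ℤ) ∣ c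
  · obtain ⟨i, p, hp, hpz, hpx, hpc⟩ := hbad
    have hS : ∑ t ∈ Ioc J1 J2, ∏ i, (rg w y (t + θ i) *
        dz z z1 (M * x i * (t + θ i) + c)) = 0 := by
      refine Finset.sum_eq_zero fun t _ => Finset.prod_eq_zero (mem_univ i) ?_
      rw [dz, lz_zero hp hpz hpx hpc, lz_zero hp (hpz.trans hzz1) hpx hpc, sub_zero, mul_zero]
    rw [hS, abs_zero]
    have : 0 ≤ hq z (Dl c M x θ) - 1 := by linarith
    positivity
  · push Not at hbad
    have hcp : ∀ p : ℕ, p.Prime → p ≤ z1 → ∀ i, ¬ ((p : ℤ) ∣ M * x i ∧ (p : ℤ) ∣ c) := by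
      rintro p hp hpz1 i ⟨h3, h4⟩
      rcases le_or_gt p z with hpz | hpz
      · exact hbad i p hp hpz h3 h4
      · rcases (Nat.prime_iff_prime_int.1 hp).dvd_or_dvd h3 with h5 | h5
        · exact hMc p hp (lt_of_le_of_lt hyz hpz) (Int.natCast_dvd_natCast.1 h5)
        · exact hcz p hp hpz hpz1 h4 i h5
    have hz1 : 2 ≤ z1 := by omega
    obtain ⟨G, hG⟩ : ∃ G : ℝ, G = (VW 0 z)⁻¹ ^ 4 * A0 w y z M x θ c := ⟨_, rfl⟩
    have hG0 : 0 ≤ G := by
      rw [hG]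
      exact mul_nonneg (pow_nonneg (inv_nonneg.2 (VW_pos 0 z).le) _) (A0_nonneg _ _ _ _ _ _ _)
    have hGle : G ≤ 256 * (VW 0 y)⁻¹ ^ 4 * hq y (Dl c M x θ) := by
      rw [hG]
      exact G0_le' (by omega) hyz hD hMc (fun p hp hpz => hcp p hp (hpz.trans hzz1))
    set δ : ℝ := (1 + 192 / z) * hq z (Dl c M x θ) - 1 with hδ
    have hPS : ∀ Sb, |PS z z1 M x θ c Sb - 1| ≤ δ := fun Sb => by
      have hSb : Sb.card ≤ 4 := by
        have := Finset.card_le_univ Sb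
        rwa [Fintype.card_fin] at this
      exact high_gen (fun p => (NT M x θ c Sb p).card) hSb (by omega) hzz1 hD
        (fun p hp _ hpz1 => NT_card_le Sb hp (hcp p hp hpz1))
        (fun p hp hpz hpz1 hd => le_antisymm (NT_card_le Sb hp (hcp p hp hpz1))
          (le_NT_card Sb hp (hMc p hp (by omega)) hd))
    have hPSle : ∀ Sb, PS z z1 M x θ c Sb ≤ 2 * hq z (Dl c M x θ) := by
      intro Sb
      have h3 := (abs_le.1 (hPS Sb)).2
      have h4 : 192 / (z : ℝ) ≤ 1 := by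
        rw [div_le_one hz0]
        have : 192 ≤ z := by omega
        exact_mod_cast this
      rw [hδ] at h3
      nlinarith
    -- the count
    let cnt : Finset (Fin 4) → ℝ := fun Sb => (((Ioc J1 J2).filter (fun t : ℤ =>
      ∀ p : ℕ, p.Prime → p ≤ z1 → (t % p).toNat ∉ Om w y z M x θ c Sb p)).card : ℝ)
    have hcnt : ∀ Sb, |wt z z1 Sb * cnt Sb - ((J2 : ℝ) - J1) * (G * PS z z1 M x θ c Sb)| ≤
        (1 / 2 : ℝ) ^ b * (((J2 : ℝ) - J1) * (G * PS z z1 M x θ c Sb)) +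
          (VW 0 z1)⁻¹ ^ 4 * (z1 : ℝ) ^ (K0 * b) := by
      intro Sb
      have h3 := hF b z1 (Om w y z M x θ c Sb) J1 J2 (by omega) hz1
        (fun p hp hpz1 => ⟨filter_subset _ _, Om_card_le hp (hcp p hp hpz1)⟩) hJ
      have h4 := wt_mul (w := w) (y := y) (M := M) (x := x) (θ := θ) (c := c) Sb hyz hzz1
      rw [← hG] at h4
      rw [← h4]
      have h5 := mul_le_mul_of_nonneg_left h3 (wt_nonneg z z1 Sb)
      rw [← abs_of_nonneg (wt_nonneg z z1 Sb), ← abs_mul, abs_of_nonneg (wt_nonneg z z1 Sb)] at h5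
      have h6 : wt z z1 Sb * (z1 : ℝ) ^ (K0 * b) ≤ (VW 0 z1)⁻¹ ^ 4 * (z1 : ℝ) ^ (K0 * b) :=
        mul_le_mul_of_nonneg_right (wt_le hzz1 Sb) (by positivity)
      refine le_trans (le_of_eq ?_) (h5.trans (le_trans (le_of_eq ?_) (add_le_add_right h6 _)))
      · congr 1
        simp only [cnt]
        ring
      · ring
    -- the sum
    have hsum : ∑ t ∈ Ioc J1 J2, ∏ i, (rg w y (t + θ i) * dz z z1 (M * x i * (t + θ i) + c)) =
        ∑ Sb ∈ (univ : Finset (Fin 4)).powerset, (∏ _i ∈ univ \ Sb, (-1 : ℝ)) *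
          (wt z z1 Sb * cnt Sb) := by
      rw [Finset.sum_congr rfl fun t _ => expand w y z z1 M x θ c t, Finset.sum_comm]
      refine Finset.sum_congr rfl fun Sb _ => ?_
      rw [← Finset.mul_sum]
      congr 1
      rw [Finset.sum_congr rfl fun t _ => ind_eq Sb hyz hzz1 t, ← Finset.sum_filter,
        Finset.sum_const, nsmul_eq_mul, mul_comm, wt]
      congr 1
      simp only [cnt]
      congr 2
      refine Finset.filter_congr fun t _ => ?_
      exact forall_congr' fun p => forall_congr' fun hp => forall_congr' fun _ =>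
        (not_mem_Om hp.pos t).symm
    have hsgn : ∑ Sb ∈ (univ : Finset (Fin 4)).powerset, (∏ _i ∈ univ \ Sb, (-1 : ℝ)) = 0 := by
      have := Finset.prod_add (fun _ : Fin 4 => (1 : ℝ)) (fun _ => -1) univ
      simp only [Finset.prod_const_one, one_mul] at this
      rw [← this]
      simp
    have habs : ∀ Sb : Finset (Fin 4), |∏ _i ∈ univ \ Sb, (-1 : ℝ)| = 1 := by
      intro Sb
      rw [Finset.prod_const, abs_pow, abs_neg, abs_one, one_pow]
    have hfin : |∑ t ∈ Ioc J1 J2, ∏ i, (rg w y (t + θ i) *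
        dz z z1 (M * x i * (t + θ i) + c))| ≤
        16 * ((1 / 2 : ℝ) ^ b * (((J2 : ℝ) - J1) * (G * (2 * hq z (Dl c M x θ)))) +
          (VW 0 z1)⁻¹ ^ 4 * (z1 : ℝ) ^ (K0 * b) + ((J2 : ℝ) - J1) * G * δ) := by
      have e : ∑ t ∈ Ioc J1 J2, ∏ i, (rg w y (t + θ i) *
          dz z z1 (M * x i * (t + θ i) + c)) =
          ∑ Sb ∈ (univ : Finset (Fin 4)).powerset, (∏ _i ∈ univ \ Sb, (-1 : ℝ)) *
            (wt z z1 Sb * cnt Sb - ((J2 : ℝ) - J1) * G) := by
        rw [hsum]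
        simp only [mul_sub]
        rw [Finset.sum_sub_distrib, ← Finset.sum_mul, hsgn]
        ring
      rw [e]
      refine (Finset.abs_sum_le_sum_abs _ _).trans ?_
      have hcard : ((univ : Finset (Fin 4)).powerset.card : ℝ) = 16 := by
        rw [Finset.card_powerset, Finset.card_univ, Fintype.card_fin]; norm_num
      rw [← hcard, ← nsmul_eq_mul]
      refine Finset.sum_le_card_nsmul _ _ _ fun Sb _ => ?_
      rw [abs_mul, habs, one_mul]
      have h3 := hcnt Sb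
      have h4 := hPS Sb
      have h5 := hPSle Sb
      have e2 : wt z z1 Sb * cnt Sb - ((J2 : ℝ) - J1) * G =
          (wt z z1 Sb * cnt Sb - ((J2 : ℝ) - J1) * (G * PS z z1 M x θ c Sb)) +
          ((J2 : ℝ) - J1) * G * (PS z z1 M x θ c Sb - 1) := by ring
      rw [e2]
      refine (abs_add_le _ _).trans (add_le_add (h3.trans (add_le_add_left ?_ _)) ?_)
      · gcongr
      · rw [abs_mul, abs_of_nonneg (mul_nonneg hL hG0)]
        gcongr
    refine hfin.trans ?_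
    -- the error term with `z1`
    have hz1z : (z1 : ℝ) ≥ 1 := by exact_mod_cast (by omega : 1 ≤ z1)
    have hV1 : (VW 0 z1)⁻¹ ≤ C * z1 := by
      refine (hC z1 hz1).2.trans ?_
      gcongr
      have := Real.log_le_sub_one_of_pos (show (0 : ℝ) < z1 by linarith)
      linarith
    have herr : 16 * ((VW 0 z1)⁻¹ ^ 4 * (z1 : ℝ) ^ (K0 * b)) ≤ (z1 : ℝ) ^ (K * b) := by
      have h3 : (VW 0 z1)⁻¹ ^ 4 ≤ (C * z1) ^ 4 :=
        pow_le_pow_left₀ (inv_nonneg.2 (VW_pos 0 z1).le) hV1 4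
      have h4 : 16 * C ^ 4 ≤ z1 := by
        have : (N : ℝ) ≤ z1 := by exact_mod_cast (by omega : N ≤ z1)
        linarith
      calc 16 * ((VW 0 z1)⁻¹ ^ 4 * (z1 : ℝ) ^ (K0 * b))
          ≤ 16 * ((C * z1) ^ 4 * (z1 : ℝ) ^ (K0 * b)) := by gcongr
        _ = (16 * C ^ 4) * ((z1 : ℝ) ^ 4 * (z1 : ℝ) ^ (K0 * b)) := by ring
        _ ≤ z1 * ((z1 : ℝ) ^ 4 * (z1 : ℝ) ^ (K0 * b)) := by gcongr
        _ = (z1 : ℝ) ^ (5 + K0 * b) := by rw [pow_add]; ring
        _ ≤ (z1 : ℝ) ^ (K * b) := by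
            apply pow_le_pow_right₀ hz1z
            have hb : 1 ≤ b := by omega
            have : (K0 + 5) * b ≤ K * b := Nat.mul_le_mul_right b (by omega)
            nlinarith
    -- the main terms
    obtain ⟨Q, hQ⟩ : ∃ Q : ℝ, Q = hq y (Dl c M x θ) := ⟨_, rfl⟩
    obtain ⟨R, hR⟩ : ∃ R : ℝ, R = hq z (Dl c M x θ) := ⟨_, rfl⟩
    obtain ⟨V, hV⟩ : ∃ V : ℝ, V = (VW 0 y)⁻¹ ^ 4 := ⟨_, rfl⟩
    obtain ⟨L, hLL⟩ : ∃ L : ℝ, L = (J2 : ℝ) - J1 := ⟨_, rfl⟩
    obtain ⟨e, he⟩ : ∃ e : ℝ, e = (1 / 2 : ℝ) ^ b := ⟨_, rfl⟩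
    obtain ⟨r, hr⟩ : ∃ r : ℝ, r = 1 / (z : ℝ) := ⟨_, rfl⟩
    have hV0 : 0 ≤ V := by rw [hV]; positivity
    have he0 : 0 ≤ e := by rw [he]; positivity
    have hr0 : 0 ≤ r := by rw [hr]; positivity
    have hδ' : δ = (R - 1) + 192 * r * R := by
      rw [hδ, hR, hr]; ring
    rw [← hQ, ← hV] at hGle
    rw [← hQ] at hqy hqzy
    rw [← hR] at hqz hqzy
    rw [← hLL] at hL
    rw [hδ', ← hQ, ← hR, ← hV, ← hLL, ← he, ← hr]
    have hKr : (1000000 : ℝ) ≤ K := by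
      have : 1000000 ≤ K := by omega
      exact_mod_cast this
    have hX : 0 ≤ V * L * (Q ^ 2 * (e + r) + Q * (R - 1)) := by
      have : 0 ≤ R - 1 := by linarith
      have : 0 ≤ Q := by linarith
      positivity
    have hmain : 16 * (e * (L * (G * (2 * R))) + L * G * ((R - 1) + 192 * r * R)) ≤
        1000000 * (V * L * (Q ^ 2 * (e + r) + Q * (R - 1))) := by
      have hR1 : 0 ≤ R - 1 := by linarith
      have hQ0 : 0 ≤ Q := by linarith
      have hR0 : 0 ≤ R := by linarith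
      calc 16 * (e * (L * (G * (2 * R))) + L * G * ((R - 1) + 192 * r * R))
          ≤ 16 * (e * (L * ((256 * V * Q) * (2 * Q))) +
            L * (256 * V * Q) * ((R - 1) + 192 * r * Q)) := by gcongr
        _ = V * L * (8192 * (Q ^ 2 * e) + 786432 * (Q ^ 2 * r) + 4096 * (Q * (R - 1))) := by ring
        _ ≤ V * L * (1000000 * (Q ^ 2 * e) + 1000000 * (Q ^ 2 * r) +
            1000000 * (Q * (R - 1))) := by
            gcongr <;> norm_num
        _ = _ := by ring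
    have hfinal : 1000000 * (V * L * (Q ^ 2 * (e + r) + Q * (R - 1))) ≤
        K * V * L * (Q ^ 2 * (e + r) + Q * (R - 1)) := by
      have := mul_le_mul_of_nonneg_right hKr hX
      linarith
    linarith

/-! ### The upper bound -/

lemma expandU (w y z z1 M : ℕ) (x θ : Fin 4 → ℤ) (c t : ℤ) :
    ∏ i, (rg w y (t + θ i) * (lz z1 (M * x i * (t + θ i) + c) +
      lz z (M * x i * (t + θ i) + c))) =
      ∑ Sb ∈ (univ : Finset (Fin 4)).powerset,
        ((∏ i, rg w y (t + θ i)) * ((∏ i ∈ Sb, lz z1 (nn M x θ c i t)) *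
          ∏ i ∈ univ \ Sb, lz z (nn M x θ c i t))) := by
  rw [Finset.prod_mul_distrib]
  have h : ∀ i, lz z1 (M * x i * (t + θ i) + c) + lz z (M * x i * (t + θ i) + c) =
      lz z1 (nn M x θ c i t) + lz z (nn M x θ c i t) := by
    intro i
    rw [nn]
  rw [Finset.prod_congr rfl (fun i _ => h i), Finset.prod_add, Finset.mul_sum]

open Classical in
/-- the classes, dropped at the primes which divide `c` and a coefficient -/
def Oz (w y z M : ℕ) (x θ : Fin 4 → ℤ) (c : ℤ) (Sb : Finset (Fin 4)) (p : ℕ) : Finset ℕ :=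
  if (∀ i, ¬ ((p : ℤ) ∣ M * x i ∧ (p : ℤ) ∣ c)) then Om w y z M x θ c Sb p else ∅

lemma Oz_subset (w y z M : ℕ) (x θ : Fin 4 → ℤ) (c : ℤ) (Sb : Finset (Fin 4)) (p : ℕ) :
    Oz w y z M x θ c Sb p ⊆ Om w y z M x θ c Sb p := by
  rw [Oz]
  split_ifs
  · exact subset_rfl
  · exact empty_subset _

/-- FUBu. -/
theorem t_FUBu (h1 : S_FLC) (h2 : S_MER) : S_FUBu := by
  classical
  obtain ⟨K0, hK0, hF⟩ := h1
  obtain ⟨C, hC1, -, hC⟩ := h2
  obtain ⟨N, hN⟩ := exists_nat_ge (16 * C ^ 4)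
  refine ⟨K0 * K0 + K0 + 5 + N + 1000000, by omega, ?_⟩
  intro c w y z z1 M x θ J1 J2 hKz hw hwy hyz hzz1 hMd hJ hD
  obtain ⟨P0, hP0⟩ : ∃ P0 : ℕ, P0 = K0 * K0 := ⟨_, rfl⟩
  rw [← hP0] at hKz ⊢
  obtain ⟨K, hK⟩ : ∃ K : ℕ, K = P0 + K0 + 5 + N + 1000000 := ⟨_, rfl⟩
  rw [← hK] at hKz ⊢
  have hL : 0 ≤ (J2 : ℝ) - J1 := by
    have : (J1 : ℝ) ≤ J2 := by exact_mod_cast hJ
    linarith
  have hVy := VW_pos 0 y
  have hqy := one_le_hq y (Dl c M x θ)
  have hqz := one_le_hq z (Dl c M x θ)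
  have hqzy := hq_mono hyz (Dl c M x θ)
  have hz0 : (0 : ℝ) < z := by
    have : 0 < z := by omega
    exact_mod_cast this
  have hMc : ∀ p : ℕ, p.Prime → y < p → ¬ p ∣ M := by
    intro p hp hyp h3
    have h6 := (dvd_PP hp (h3.trans hMd)).2
    omega
  by_cases hbad : ∃ i, ∃ p : ℕ, p.Prime ∧ p ≤ z ∧ (p : ℤ) ∣ M * x i ∧ (p : ℤ) ∣ c
  · obtain ⟨i, p, hp, hpz, hpx, hpc⟩ := hbad
    have hS : ∑ t ∈ Ioc J1 J2, ∏ i, (rg w y (t + θ i) *
        (lz z1 (M * x i * (t + θ i) + c) + lz z (M * x i * (t + θ i) + c))) = 0 := by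
      refine Finset.sum_eq_zero fun t _ => Finset.prod_eq_zero (mem_univ i) ?_
      rw [lz_zero hp hpz hpx hpc, lz_zero hp (hpz.trans hzz1) hpx hpc, add_zero, mul_zero]
    rw [hS]
    positivity
  · push Not at hbad
    have hcp : ∀ p : ℕ, p.Prime → p ≤ z → ∀ i, ¬ ((p : ℤ) ∣ M * x i ∧ (p : ℤ) ∣ c) := by
      rintro p hp hpz i ⟨h3, h4⟩
      exact hbad i p hp hpz h3 h4
    have hz1 : 2 ≤ z1 := by omega
    obtain ⟨G, hG⟩ : ∃ G : ℝ, G = (VW 0 z)⁻¹ ^ 4 * A0 w y z M x θ c := ⟨_, rfl⟩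
    have hG0 : 0 ≤ G := by
      rw [hG]
      exact mul_nonneg (pow_nonneg (inv_nonneg.2 (VW_pos 0 z).le) _) (A0_nonneg _ _ _ _ _ _ _)
    have hGle : G ≤ 256 * (VW 0 y)⁻¹ ^ 4 * hq y (Dl c M x θ) := by
      rw [hG]
      exact G0_le' (by omega) hyz hD hMc hcp
    obtain ⟨PZ, hPZ⟩ : ∃ PZ : Finset (Fin 4) → ℝ, ∀ Sb, PZ Sb =
        ∏ p ∈ (Ioc z z1).filter Nat.Prime,
          (1 - ((Oz w y z M x θ c Sb p).card : ℝ) / p) / (1 - 1 / (p : ℝ)) ^ Sb.card :=
      ⟨_, fun _ => rfl⟩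
    have hPZle : ∀ Sb, PZ Sb ≤ 2 * hq z (Dl c M x θ) := by
      intro Sb
      have hSb : Sb.card ≤ 4 := by
        have := Finset.card_le_univ Sb
        rwa [Fintype.card_fin] at this
      have hPS : |PZ Sb - 1| ≤ (1 + 192 / z) * hq z (Dl c M x θ) - 1 := by
        rw [hPZ]
        refine high_gen (fun p => (Oz w y z M x θ c Sb p).card) hSb (by omega) hzz1 hD
          (fun p hp hpz hpz1 => ?_) (fun p hp hpz hpz1 hd => ?_)
        · simp only [Oz]
          split_ifs with hg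
          · rw [Om_eq_high (lt_of_le_of_lt hyz hpz) hpz]
            exact NT_card_le Sb hp hg
          · simp
        · have hg : ∀ i, ¬ ((p : ℤ) ∣ M * x i ∧ (p : ℤ) ∣ c) := by
            rintro i ⟨h3, -⟩
            rcases (Nat.prime_iff_prime_int.1 hp).dvd_or_dvd h3 with h5 | h5
            · exact hMc p hp (lt_of_le_of_lt hyz hpz) (Int.natCast_dvd_natCast.1 h5)
            · apply hd
              exact Dvd.dvd.mul_right (h5.trans (Finset.dvd_prod_of_mem x (mem_univ i))) _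
          simp only [Oz]
          rw [if_pos hg, Om_eq_high (lt_of_le_of_lt hyz hpz) hpz]
          exact le_antisymm (NT_card_le Sb hp hg)
            (le_NT_card Sb hp (hMc p hp (lt_of_le_of_lt hyz hpz)) hd)
      have h3 := (abs_le.1 hPS).2
      have h4 : 192 / (z : ℝ) ≤ 1 := by
        rw [div_le_one hz0]
        have : 192 ≤ z := by omega
        exact_mod_cast this
      nlinarith
    have hPZ0 : ∀ Sb, 0 ≤ PZ Sb := by
      intro Sb
      rw [hPZ]
      refine Finset.prod_nonneg fun p hp => ?_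
      rw [mem_filter, mem_Ioc] at hp
      have hcd : ((Oz w y z M x θ c Sb p).card : ℝ) / p ≤ 1 := by
        have h3 : ((Oz w y z M x θ c Sb p).card : ℝ) ≤ (Om w y z M x θ c Sb p).card := by
          exact_mod_cast card_le_card (Oz_subset w y z M x θ c Sb p)
        exact (div_le_div_of_nonneg_right h3 (by positivity)).trans (card_Om_le hp.2.pos)
      exact div_nonneg (by linarith) (pow_nonneg (fac_pos hp.2).le _)
    -- the count
    let cnt : Finset (Fin 4) → ℝ := fun Sb => (((Ioc J1 J2).filter (fun t : ℤ =>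
      ∀ p : ℕ, p.Prime → p ≤ z1 → (t % p).toNat ∉ Om w y z M x θ c Sb p)).card : ℝ)
    let cnz : Finset (Fin 4) → ℝ := fun Sb => (((Ioc J1 J2).filter (fun t : ℤ =>
      ∀ p : ℕ, p.Prime → p ≤ z1 → (t % p).toNat ∉ Oz w y z M x θ c Sb p)).card : ℝ)
    have hcc : ∀ Sb, cnt Sb ≤ cnz Sb := by
      intro Sb
      simp only [cnt, cnz]
      have : ((Ioc J1 J2).filter (fun t : ℤ =>
        ∀ p : ℕ, p.Prime → p ≤ z1 → (t % p).toNat ∉ Om w y z M x θ c Sb p)) ⊆
        ((Ioc J1 J2).filter (fun t : ℤ =>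
        ∀ p : ℕ, p.Prime → p ≤ z1 → (t % p).toNat ∉ Oz w y z M x θ c Sb p)) := by
        intro t ht
        rw [mem_filter] at ht ⊢
        exact ⟨ht.1, fun p hp hpz h => ht.2 p hp hpz (Oz_subset _ _ _ _ _ _ _ _ _ h)⟩
      exact_mod_cast card_le_card this
    have hwz : ∀ Sb, wt z z1 Sb * ∏ p ∈ (Ioc 0 z1).filter Nat.Prime,
        (1 - ((Oz w y z M x θ c Sb p).card : ℝ) / p) = G * PZ Sb := by
      intro Sb
      rw [wt_eq hzz1, prod_split _ (Nat.zero_le z) hzz1, hPZ, Finset.prod_div_distrib,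
        Finset.prod_pow, hG, A0]
      have e1 : ∏ p ∈ (Ioc 0 z).filter Nat.Prime,
          (1 - ((Oz w y z M x θ c Sb p).card : ℝ) / p) =
          ∏ p ∈ (Ioc 0 z).filter Nat.Prime, (1 - ((Om w y z M x θ c ∅ p).card : ℝ) / p) :=
        Finset.prod_congr rfl fun p hp => by
          rw [mem_filter, mem_Ioc] at hp
          rw [Oz, if_pos (hcp p hp.2 hp.1.2), Om_eq_low hp.1.2]
      have e3 : ∏ p ∈ (Ioc z z1).filter Nat.Prime, (1 - 1 / (p : ℝ)) = VW z z1 := rfl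
      rw [e1, e3, div_eq_mul_inv]
      ring
    have hcnt : ∀ Sb, wt z z1 Sb * cnt Sb ≤ 2 * (((J2 : ℝ) - J1) * (G * PZ Sb)) +
          (VW 0 z1)⁻¹ ^ 4 * (z1 : ℝ) ^ P0 := by
      intro Sb
      have h3 := hF K0 z1 (Oz w y z M x θ c Sb) J1 J2 le_rfl hz1
        (fun p hp hpz1 => ⟨(Oz_subset _ _ _ _ _ _ _ _ _).trans (filter_subset _ _), by
          simp only [Oz]
          split_ifs with hg
          · exact Om_card_le hp hg
          · simp⟩) hJ
      rw [← hP0] at h3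
      have h3' := (abs_le.1 h3).2
      have hhalf : (1 / 2 : ℝ) ^ K0 ≤ 1 := pow_le_one₀ (by norm_num) (by norm_num)
      have hprod0 : 0 ≤ ((J2 : ℝ) - J1) * ∏ p ∈ (Ioc 0 z1).filter Nat.Prime,
          (1 - ((Oz w y z M x θ c Sb p).card : ℝ) / p) := by
        refine mul_nonneg hL (Finset.prod_nonneg fun p hp => ?_)
        rw [mem_filter, mem_Ioc] at hp
        have h3 : ((Oz w y z M x θ c Sb p).card : ℝ) ≤ (Om w y z M x θ c Sb p).card := by
          exact_mod_cast card_le_card (Oz_subset w y z M x θ c Sb p)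
        have := (div_le_div_of_nonneg_right h3 (by positivity : (0 : ℝ) ≤ p)).trans
          (card_Om_le (w := w) (y := y) (z := z) (M := M) (x := x) (θ := θ) (c := c)
            (Sb := Sb) hp.2.pos)
        linarith
      have h4 : cnz Sb ≤ 2 * (((J2 : ℝ) - J1) * ∏ p ∈ (Ioc 0 z1).filter Nat.Prime,
          (1 - ((Oz w y z M x θ c Sb p).card : ℝ) / p)) + (z1 : ℝ) ^ P0 := by
        have h5 := mul_le_mul_of_nonneg_right hhalf hprod0
        simp only [cnz]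
        linarith
      have h5 := mul_le_mul_of_nonneg_left ((hcc Sb).trans h4) (wt_nonneg z z1 Sb)
      have h6 : wt z z1 Sb * (z1 : ℝ) ^ P0 ≤ (VW 0 z1)⁻¹ ^ 4 * (z1 : ℝ) ^ P0 :=
        mul_le_mul_of_nonneg_right (wt_le hzz1 Sb) (by positivity)
      rw [← hwz Sb]
      linarith
    -- the sum
    have hsum : ∑ t ∈ Ioc J1 J2, ∏ i, (rg w y (t + θ i) * (lz z1 (M * x i * (t + θ i) + c) +
        lz z (M * x i * (t + θ i) + c))) =
        ∑ Sb ∈ (univ : Finset (Fin 4)).powerset, wt z z1 Sb * cnt Sb := by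
      rw [Finset.sum_congr rfl fun t _ => expandU w y z z1 M x θ c t, Finset.sum_comm]
      refine Finset.sum_congr rfl fun Sb _ => ?_
      rw [Finset.sum_congr rfl fun t _ => ind_eq Sb hyz hzz1 t, ← Finset.sum_filter,
        Finset.sum_const, nsmul_eq_mul, mul_comm, wt]
      congr 1
      simp only [cnt]
      congr 2
      refine Finset.filter_congr fun t _ => ?_
      exact forall_congr' fun p => forall_congr' fun hp => forall_congr' fun _ =>
        (not_mem_Om hp.pos t).symm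
    have hfin : ∑ t ∈ Ioc J1 J2, ∏ i, (rg w y (t + θ i) * (lz z1 (M * x i * (t + θ i) + c) +
        lz z (M * x i * (t + θ i) + c))) ≤
        16 * (2 * (((J2 : ℝ) - J1) * (G * (2 * hq z (Dl c M x θ)))) +
          (VW 0 z1)⁻¹ ^ 4 * (z1 : ℝ) ^ P0) := by
      rw [hsum]
      have hcard : ((univ : Finset (Fin 4)).powerset.card : ℝ) = 16 := by
        rw [Finset.card_powerset, Finset.card_univ, Fintype.card_fin]; norm_num
      rw [← hcard, ← nsmul_eq_mul]
      refine Finset.sum_le_card_nsmul _ _ _ fun Sb _ => ?_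
      have h5 := hPZle Sb
      refine (hcnt Sb).trans ?_
      gcongr
    refine hfin.trans ?_
    -- the error term with `z1`
    have hz1z : (z1 : ℝ) ≥ 1 := by exact_mod_cast (by omega : 1 ≤ z1)
    have hV1 : (VW 0 z1)⁻¹ ≤ C * z1 := by
      refine (hC z1 hz1).2.trans ?_
      gcongr
      have := Real.log_le_sub_one_of_pos (show (0 : ℝ) < z1 by linarith)
      linarith
    have herr : 16 * ((VW 0 z1)⁻¹ ^ 4 * (z1 : ℝ) ^ P0) ≤ (z1 : ℝ) ^ K := by
      have h3 : (VW 0 z1)⁻¹ ^ 4 ≤ (C * z1) ^ 4 :=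
        pow_le_pow_left₀ (inv_nonneg.2 (VW_pos 0 z1).le) hV1 4
      have h4 : 16 * C ^ 4 ≤ z1 := by
        have : (N : ℝ) ≤ z1 := by exact_mod_cast (by omega : N ≤ z1)
        linarith
      calc 16 * ((VW 0 z1)⁻¹ ^ 4 * (z1 : ℝ) ^ P0)
          ≤ 16 * ((C * z1) ^ 4 * (z1 : ℝ) ^ P0) := by gcongr
        _ = (16 * C ^ 4) * ((z1 : ℝ) ^ 4 * (z1 : ℝ) ^ P0) := by ring
        _ ≤ z1 * ((z1 : ℝ) ^ 4 * (z1 : ℝ) ^ P0) := by gcongr
        _ = (z1 : ℝ) ^ (5 + P0) := by rw [pow_add]; ring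
        _ ≤ (z1 : ℝ) ^ K := by
            apply pow_le_pow_right₀ hz1z
            omega
    -- the main terms
    obtain ⟨Q, hQ⟩ : ∃ Q : ℝ, Q = hq y (Dl c M x θ) := ⟨_, rfl⟩
    obtain ⟨R, hR⟩ : ∃ R : ℝ, R = hq z (Dl c M x θ) := ⟨_, rfl⟩
    obtain ⟨V, hV⟩ : ∃ V : ℝ, V = (VW 0 y)⁻¹ ^ 4 := ⟨_, rfl⟩
    obtain ⟨L, hLL⟩ : ∃ L : ℝ, L = (J2 : ℝ) - J1 := ⟨_, rfl⟩
    have hV0 : 0 ≤ V := by rw [hV]; positivity
    rw [← hQ, ← hV] at hGle
    rw [← hQ] at hqy hqzy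
    rw [← hR] at hqz hqzy
    rw [← hLL] at hL
    rw [← hQ, ← hR, ← hV, ← hLL]
    have hKr : (1000000 : ℝ) ≤ K := by
      have : 1000000 ≤ K := by omega
      exact_mod_cast this
    have hX : 0 ≤ V * L * Q ^ 2 := by positivity
    have hmain : 16 * (2 * (L * (G * (2 * R)))) ≤ 1000000 * (V * L * Q ^ 2) := by
      have hQ0 : 0 ≤ Q := by linarith
      have hR0 : 0 ≤ R := by linarith
      calc 16 * (2 * (L * (G * (2 * R))))
          ≤ 16 * (2 * (L * ((256 * V * Q) * (2 * Q)))) := by gcongr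
        _ = 16384 * (V * L * Q ^ 2) := by ring
        _ ≤ 1000000 * (V * L * Q ^ 2) := by
            gcongr; norm_num
    have hfinal : 1000000 * (V * L * Q ^ 2) ≤ K * V * L * Q ^ 2 := by
      have := mul_le_mul_of_nonneg_right hKr hX
      linarith
    linarith

end

end Pool.Agent.N488.QU
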